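import Pool.Agent.TH306.N4.Stmts
import Pool.Agent.TH974.DerConst
import Pool.Agent.TH880.N4.Bi
import Pool.Agent.TH448.N4.Growth

/-!
The transcendence degree of the function field of a surface is two.
-/

set_option autoImplicit false

open MvPolynomial Module Filter Topology

namespace Pool.Agent.TH471.N4

open Pool.Agent.TH279.GR Pool.Agent.TH306.N4

section general

variable {FF : Type} [Field FF] [Algebra ℂ FF]

theorem indep_snoc {n : ℕ} (x : Fin n → FF) (a : FF) (hx : AlgebraicIndependent ℂ x)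
    (ha : Transcendental (IntermediateField.adjoin ℂ (Set.range x)) a) :
    AlgebraicIndependent ℂ (Fin.snoc x a : Fin (n + 1) → FF) := by
  have ha' : Transcendental (Algebra.adjoin ℂ (Set.range x)) a := by
    intro h
    exact ha ((Pool.Agent.TH974.N4.isAlgebraic_adjoin_iff _ _).1 h)
  have h1 := (hx.option_iff_transcendental a).2 ha'
  have h2 := h1.comp _ (finSuccEquivLast (n := n)).injective
  convert h2 using 1
  ext i
  refine Fin.lastCases ?_ (fun i => ?_) i
  · simp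
  · simp

theorem alg_of_not_indep {n : ℕ} (x : Fin n → FF) (a : FF) (hx : AlgebraicIndependent ℂ x)
    (h : ¬ AlgebraicIndependent ℂ (Fin.snoc x a : Fin (n + 1) → FF)) :
    IsAlgebraic (IntermediateField.adjoin ℂ (Set.range x)) a := by
  by_contra hna
  exact h (indep_snoc x a hx hna)

end general

section sp

theorem finrank_map_eq {M V V' : Type*} [AddCommGroup M] [Module ℂ M] [AddCommGroup V]
    [Module ℂ V] [AddCommGroup V'] [Module ℂ V'] (W : Submodule ℂ M) (f : M →ₗ[ℂ] V)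
    (g : M →ₗ[ℂ] V') (h : ∀ x ∈ W, f x = 0 ↔ g x = 0) :
    finrank ℂ (W.map f) = finrank ℂ (W.map g) := by
  have hk : LinearMap.ker (f.domRestrict W) = LinearMap.ker (g.domRestrict W) := by
    ext x
    rw [LinearMap.mem_ker, LinearMap.mem_ker, LinearMap.domRestrict_apply,
      LinearMap.domRestrict_apply]
    exact h x x.2
  rw [← LinearMap.range_domRestrict, ← LinearMap.range_domRestrict,
    ← (LinearMap.quotKerEquivRange (f.domRestrict W)).finrank_eq,
    ← (LinearMap.quotKerEquivRange (g.domRestrict W)).finrank_eq, hk]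

variable {a b : ℕ} {P : Ideal (Co a b)} {i : Fin (a + 1)} {j : Fin (b + 1)} {FF : Type} [Field FF]
  [Algebra ℂ FF] {π : Co a b →ₐ[ℂ] FF}

theorem finrank_TT (hM : Mod P i j π) (u v : ℕ) : finrank ℂ (TT π u v) = hf P u v := by
  refine finrank_map_eq _ _ _ fun F hF => ?_
  have h1 : π.toLinearMap F = 0 ↔ F ∈ P := by
    rw [AlgHom.toLinearMap_apply, hM.ker]
    exact ⟨fun h => Pool.Agent.TH880.N4.mem_of_mem_chart P hM.prime hM.hom hM.hi hM.hj hF h,
      fun h => Ideal.mem_sup_left h⟩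
  have h2 : (Ideal.Quotient.mkₐ ℂ P).toLinearMap F = 0 ↔ F ∈ P := by
    rw [AlgHom.toLinearMap_apply, Ideal.Quotient.mkₐ_eq_mk, Ideal.Quotient.eq_zero_iff_mem]
  rw [h1, h2]

theorem TT_pow (π : Co a b →ₐ[ℂ] FF) (N t : ℕ) (ht : 1 ≤ t) :
    (TT π N N) ^ t = TT π (N * t) (N * t) := by
  induction t, ht using Nat.le_induction with
  | base => rw [pow_one, mul_one]
  | succ t _ ih =>
    rw [pow_succ, ih]
    unfold TT
    rw [← Submodule.map_mul, ← Pool.Agent.TH880.N4.bh_add]
    rfl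

instance finite_TT (π : Co a b →ₐ[ℂ] FF) (u v : ℕ) : FiniteDimensional ℂ (TT π u v) := by
  have := Pool.Agent.TH880.N4.finite_bh (a := a) (b := b) u v
  unfold TT
  infer_instance

theorem pi_mem_TT (hM : Mod P i j π) (F : Co a b) : ∃ N : ℕ, ∀ N' ≥ N, π F ∈ TT π N' N' := by
  obtain ⟨T, hT⟩ := Pool.Agent.TH880.N4.hz i j F
  refine ⟨T, fun N' hN' => ?_⟩
  obtain ⟨G, hG, h1⟩ := hT N' hN' N' hN'
  refine ⟨G, hG, ?_⟩
  have h2 : π (G - F) = 0 := (hM.ker _).2 (Ideal.mem_sup_right h1)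
  rw [map_sub, sub_eq_zero] at h2
  exact h2

theorem one_mem_TT (hM : Mod P i j π) (u v : ℕ) : (1 : FF) ∈ TT π u v := by
  refine ⟨X (Sum.inl i) ^ u * X (Sum.inr j) ^ v, ?_, ?_⟩
  · have h1 := Pool.Agent.TH880.N4.bh_mul
      (Pool.Agent.TH880.N4.pow_mem_bh (Pool.Agent.TH880.N4.X0_mem (a := a) (b := b) i) u)
      (Pool.Agent.TH880.N4.pow_mem_bh (Pool.Agent.TH880.N4.Y0_mem (a := a) (b := b) j) v)
    simpa using h1
  · have hx : π (X (Sum.inl i)) = 1 := by
      have : π (X (Sum.inl i) - 1) = 0 :=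
        (hM.ker _).2 (Ideal.mem_sup_right (Ideal.subset_span (by simp)))
      rwa [map_sub, map_one, sub_eq_zero] at this
    have hy : π (X (Sum.inr j)) = 1 := by
      have : π (X (Sum.inr j) - 1) = 0 :=
        (hM.ker _).2 (Ideal.mem_sup_right (Ideal.subset_span (by simp)))
      rwa [map_sub, map_one, sub_eq_zero] at this
    rw [AlgHom.toLinearMap_apply, map_mul, map_pow, map_pow, hx, hy, one_pow, one_pow, one_mul]

end sp

/-- cubic growth from three algebraically independent elements (job 4608) -/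
def J3 : Prop :=
  ∀ (K : Type) [Field K] [Algebra ℂ K] (W : Submodule ℂ K) [FiniteDimensional ℂ W],
    (1 : K) ∈ W → ∀ (a b c q : K), q ≠ 0 → AlgebraicIndependent ℂ ![a, b, c] → q ∈ W →
    a * q ∈ W → b * q ∈ W → c * q ∈ W → ∀ t : ℕ,
    (t + 3).choose 3 ≤ finrank ℂ (W ^ t : Submodule ℂ K)

section main

variable {a b : ℕ} {P : Ideal (Co a b)} {α β γ : ℝ} {i : Fin (a + 1)} {j : Fin (b + 1)}
  {FF : Type} [Field FF] [Algebra ℂ FF] {π : Co a b →ₐ[ℂ] FF}

theorem no3 (hJ3 : J3) (hS : Surf P α β γ) (hM : Mod P i j π) (x y z : FF) :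
    ¬ AlgebraicIndependent ℂ ![x, y, z] := by
  intro hind
  obtain ⟨F1, G1, hG1, h1⟩ := hM.frac x
  obtain ⟨F2, G2, hG2, h2⟩ := hM.frac y
  obtain ⟨F3, G3, hG3, h3⟩ := hM.frac z
  obtain ⟨N0, hN0⟩ := pi_mem_TT hM (G1 * G2 * G3)
  obtain ⟨N1, hN1⟩ := pi_mem_TT hM (F1 * G2 * G3)
  obtain ⟨N2, hN2⟩ := pi_mem_TT hM (G1 * F2 * G3)
  obtain ⟨N3, hN3⟩ := pi_mem_TT hM (G1 * G2 * F3)
  set N := N0 + N1 + N2 + N3 + 1 with hN
  have hq : π (G1 * G2 * G3) ≠ 0 := by
    rw [map_mul, map_mul]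
    exact mul_ne_zero (mul_ne_zero hG1 hG2) hG3
  have hcub : ∀ t : ℕ, 1 ≤ t → (t + 3).choose 3 ≤ hf P (N * t) (N * t) := by
    intro t ht
    have h4 := hJ3 FF (TT π N N) (one_mem_TT hM N N) x y z (π (G1 * G2 * G3)) hq hind
      (hN0 N (by omega)) (by
        have e : x * π (G1 * G2 * G3) = π (F1 * G2 * G3) := by
          simp only [map_mul, ← h1]; ring
        rw [e]; exact hN1 N (by omega)) (by
        have e : y * π (G1 * G2 * G3) = π (G1 * F2 * G3) := by
          simp only [map_mul, ← h2]; ring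
        rw [e]; exact hN2 N (by omega)) (by
        have e : z * π (G1 * G2 * G3) = π (G1 * G2 * F3) := by
          simp only [map_mul, ← h3]; ring
        rw [e]; exact hN3 N (by omega)) t
    rwa [TT_pow π N t ht, finrank_TT hM] at h4
  have hgr := hS.growth N N (by omega) (by omega)
  set c : ℝ := α * N ^ 2 + 2 * β * N * N + γ * N ^ 2 with hc
  have hev : ∀ᶠ t : ℕ in atTop, 2 * (hf P (N * t) (N * t) : ℝ) / (t : ℝ) ^ 2 < c + 1 :=
    hgr.eventually_lt_const (by linarith)
  obtain ⟨t0, ht0⟩ := Filter.eventually_atTop.1 hev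
  obtain ⟨t1, ht1⟩ := exists_nat_gt (3 * (c + 1))
  set t := t0 + t1 + 1 with ht
  have h5 := ht0 t (by omega)
  have h6 := hcub t (by omega)
  have htpos : (0 : ℝ) < t := by
    have : 0 < t := by omega
    exact_mod_cast this
  rw [div_lt_iff₀ (by positivity)] at h5
  have h7 : (t : ℝ) ^ 3 ≤ 6 * ((t + 3).choose 3 : ℕ) := by
    have h8 : 6 * (t + 3).choose 3 = (t + 3) * (t + 2) * (t + 1) := by
      have := Nat.add_choose_mul_factorial_mul_factorial t 3
      have h9 : (t + 3).descFactorial 3 = (t + 3) * (t + 2) * (t + 1) := by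
        simp [Nat.descFactorial]
        ring
      rw [Nat.descFactorial_eq_factorial_mul_choose] at h9
      rw [← h9]
      rfl
    have h10 : (6 * ((t + 3).choose 3 : ℕ) : ℝ) = (t + 3) * (t + 2) * (t + 1) := by
      exact_mod_cast h8
    rw [h10]
    nlinarith [htpos, mul_pos htpos htpos]
  have h8 : ((t + 3).choose 3 : ℝ) ≤ hf P (N * t) (N * t) := by exact_mod_cast h6
  have h9 : (t : ℝ) ^ 3 < 3 * (c + 1) * (t : ℝ) ^ 2 := by nlinarith
  have h10 : (t : ℝ) < 3 * (c + 1) := by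
    have h11 : (t : ℝ) * (t : ℝ) ^ 2 < 3 * (c + 1) * (t : ℝ) ^ 2 := by
      calc (t : ℝ) * (t : ℝ) ^ 2 = (t : ℝ) ^ 3 := by ring
        _ < _ := h9
    exact lt_of_mul_lt_mul_right h11 (by positivity)
  have h11 : (t1 : ℝ) ≤ t := by
    rw [ht]
    push_cast
    have : (0 : ℝ) ≤ t0 := Nat.cast_nonneg _
    linarith
  linarith

theorem not_alg (hS : Surf P α β γ) (hM : Mod P i j π) (g : FF) :
    ∃ y : FF, Transcendental (IntermediateField.adjoin ℂ {g}) y := by
  by_contra hne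
  push Not at hne
  obtain ⟨C, hC⟩ := Pool.Agent.TH448.N4.growth_one (F := ℂ) (K := FF) (W := TT π 1 1)
    (one_mem_TT hM 1 1) (z := g) (fun w _ => by
      have := hne w
      rwa [Transcendental, not_not] at this)
  have hlin : ∀ t : ℕ, 1 ≤ t → hf P t t ≤ C * (t + 1) := by
    intro t ht
    have h4 := hC t
    rwa [TT_pow π 1 t ht, one_mul, finrank_TT hM] at h4
  have hgr := hS.growth 1 1 le_rfl le_rfl
  have hpos := hS.pos
  set c : ℝ := α * ((1 : ℕ) : ℝ) ^ 2 + 2 * β * ((1 : ℕ) : ℝ) * ((1 : ℕ) : ℝ) +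
    γ * ((1 : ℕ) : ℝ) ^ 2 with hc
  have hc0 : 0 < c := by
    rw [hc]
    push_cast
    linarith
  have hev : ∀ᶠ t : ℕ in atTop, c / 2 < 2 * (hf P (1 * t) (1 * t) : ℝ) / (t : ℝ) ^ 2 :=
    hgr.eventually_const_lt (by linarith)
  obtain ⟨t0, ht0⟩ := Filter.eventually_atTop.1 hev
  obtain ⟨t1, ht1⟩ := exists_nat_gt (8 * C / c)
  set t := t0 + t1 + 1 with ht
  have h5 := ht0 t (by omega)
  rw [one_mul] at h5
  have h6 := hlin t (by omega)
  have htpos : (1 : ℝ) ≤ t := by
    have : 1 ≤ t := by omega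
    exact_mod_cast this
  rw [lt_div_iff₀ (by positivity)] at h5
  have h8 : (hf P t t : ℝ) ≤ C * (t + 1) := by exact_mod_cast h6
  have h9 : c / 2 * (t : ℝ) ^ 2 < 4 * C * t := by
    have hC0 : (0 : ℝ) ≤ C := Nat.cast_nonneg _
    nlinarith
  have h10 : c / 2 * (t : ℝ) < 4 * C := by
    have h11 : c / 2 * (t : ℝ) * t < 4 * C * t := by
      calc c / 2 * (t : ℝ) * t = c / 2 * (t : ℝ) ^ 2 := by ring
        _ < _ := h9
    exact lt_of_mul_lt_mul_right h11 (by positivity)
  have h11 : (t1 : ℝ) ≤ t := by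
    rw [ht]
    push_cast
    have : (0 : ℝ) ≤ t0 := Nat.cast_nonneg _
    linarith
  have h12 : 8 * C / c < t := lt_of_lt_of_le ht1 h11
  rw [div_lt_iff₀ hc0] at h12
  linarith

/-- **A transcendental element is part of a transcendence basis with two elements.** -/
theorem exists_basis (hJ3 : J3) (hS : Surf P α β γ) (hM : Mod P i j π) (g : FF)
    (hg : Transcendental ℂ g) :
    ∃ y : FF, AlgebraicIndependent ℂ ![g, y] ∧
      ∀ z : FF, IsAlgebraic (IntermediateField.adjoin ℂ {g, y}) z := by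
  obtain ⟨y, hy⟩ := not_alg hS hM g
  have h1 : AlgebraicIndependent ℂ ![g] := by
    rw [algebraicIndependent_unique_type_iff]
    exact hg
  have h2 : AlgebraicIndependent ℂ ![g, y] := by
    have h3 := indep_snoc ![g] y h1 (by
      rw [show Set.range ![g] = {g} by
        rw [Matrix.range_cons, Matrix.range_empty, Set.union_empty]]
      exact hy)
    convert h3 using 1
    ext t
    fin_cases t <;> rfl
  refine ⟨y, h2, fun z => ?_⟩
  have h3 := alg_of_not_indep ![g, y] z h2 (by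
    intro h4
    refine no3 hJ3 hS hM g y z ?_
    convert h4 using 1
    ext t
    fin_cases t <;> rfl)
  rwa [show Set.range ![g, y] = {g, y} by
    rw [Matrix.range_cons, Matrix.range_cons, Matrix.range_empty, Set.union_empty]; rfl] at h3

end main

end Pool.Agent.TH471.N4
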