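import Pool.Agent.TH471.N4.S4
import Pool.Agent.TH471.N4.Tr
import Pool.Agent.TH554.N4.Der
import Pool.Agent.TH880.N4.S0

/-!
The interface statement `S4`.
-/

set_option autoImplicit false

namespace Pool.Agent.TH471.N4

open Pool.Agent.TH279.GR Pool.Agent.TH306.N4

theorem tr_of (hJ3 : J3) : TR := by
  intro a b P α β γ hS i j FF _ _ π hM g hg
  exact exists_basis hJ3 hS hM g hg

theorem der : DER := by
  intro FF _ _ g y hind halg
  exact Pool.Agent.TH554.N4.exists_der g y hind halg

/-- **`S4`**, from the cubic growth `J3` only. -/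
theorem s4 (hJ3 : J3) : S4 := s4_of Pool.Agent.TH880.N4.s0 (tr_of hJ3) der

end Pool.Agent.TH471.N4
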