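import Pool.Agent.TH306.N4.StmtsU
import Pool.Agent.TH471.M5.Dim
import Pool.Agent.TH471.N4.S4F
import Pool.Agent.TH611.M5.Chart

/-!
Smoothness of `X` on a non-empty open set: interface statement `U4`.
-/

set_option autoImplicit false

open MvPolynomial Module

namespace Pool.Agent.TH471.N4

open Pool.Agent.TH279.GR Pool.Agent.TH306.N4

/-- **`U4`**, from the cubic growth `J3`. -/
theorem u4 (hJ3 : J3) : U4 := by
  intro a b P α β γ hS i j hi hj
  obtain ⟨FF, _, _, π, hM⟩ := Pool.Agent.TH611.M5.exists_Mod hS.prime hS.hom hi hj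
  obtain ⟨g, hg⟩ := not_alg hS hM 1
  have hg' : Transcendental ℂ g := by
    intro h
    exact hg (h.tower_top _)
  obtain ⟨y, hind, halg⟩ := exists_basis hJ3 hS hM g hg'
  obtain ⟨D1, D2, h11, h12, h21, h22, _⟩ := der FF g y hind halg
  obtain ⟨h, hh, hall⟩ := Pool.Agent.TH471.M5.exists_chart_dim (π := π) hM.frac g y D1 D2
    h11 h12 h21 h22 (fun z => ev_of_isAlgebraic (halg z))
    (fun Q hQ => (algebraicIndependent_iff.1 hind) Q hQ)
  refine ⟨h, fun h1 => hh ((hM.ker h).2 h1), fun w hw hhw K => ?_⟩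
  have hker : RingHom.ker π = chart i j P := by
    ext f
    rw [RingHom.mem_ker, hM.ker]
  have h1 := hall w (fun f hf => hw f ((hM.ker f).1 hf)) hhw K
  rw [hker] at h1
  exact h1

end Pool.Agent.TH471.N4
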