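import Pool.Agent.TH306.N4.StmtsU
import Pool.Agent.W601.Curve.Basic

/-!
The multiplicity of the divisor of a section: interface statement `U5`.
-/

set_option autoImplicit false

open MvPolynomial Module Filter Topology

namespace Pool.Agent.TH471.N4

open Pool.Agent.TH279.GR Pool.Agent.TH306.N4 Pool.Agent.W601.Curve

variable {a b : ℕ}

theorem fin_chart (i : Fin (a + 1)) (j : Fin (b + 1)) (N : Ideal (Co a b)) (w : Ix a b → ℂ)
    (K : ℕ) : Module.Finite ℂ (Co a b ⧸ (chart i j N ⊔ mx w ^ K)) :=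
  finite_quot_of_le w K _ le_sup_right

/-- lengths along a prime filtration -/
theorem chain_len (i : Fin (a + 1)) (j : Fin (b + 1)) (w : Ix a b → ℂ) (K : ℕ)
    {N N' : Ideal (Co a b)} {l : List (Ideal (Co a b) × ℕ × ℕ)} (hc : Chain N N' l) :
    finrank ℂ (Co a b ⧸ (chart i j N ⊔ mx w ^ K)) ≤
      (l.map fun t => finrank ℂ (Co a b ⧸ (chart i j t.1 ⊔ mx w ^ K))).sum +
        finrank ℂ (Co a b ⧸ (chart i j N' ⊔ mx w ^ K)) := by
  induction hc with
  | nil N h => simp
  | @cons N' N'' N x c e l h hc ih =>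
    rw [List.map_cons, List.sum_cons]
    have h1 := finrank_le_add (A := chart i j (col N' x) ⊔ mx w ^ K)
      (B := chart i j N' ⊔ mx w ^ K) x (by
        intro y hy
        obtain ⟨p, hp, r, hr, rfl⟩ := Submodule.mem_sup.1 hy
        obtain ⟨q, hq, t, ht, rfl⟩ := Submodule.mem_sup.1 hp
        rw [mul_add, mul_add]
        refine Ideal.add_mem _ (Ideal.add_mem _ ?_ ?_) ?_
        · exact Ideal.mem_sup_left (Ideal.mem_sup_left (mem_col.1 hq))
        · exact Ideal.mem_sup_left (Ideal.mem_sup_right (Ideal.mul_mem_left _ _ ht))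
        · exact Ideal.mem_sup_right (Ideal.mul_mem_left _ _ hr))
      (fin_chart i j _ w K) (fin_chart i j _ w K)
    have h2 : chart i j N' ⊔ mx w ^ K ⊔ Ideal.span {x} = chart i j N'' ⊔ mx w ^ K := by
      rw [h.eq]
      unfold chart
      ac_rfl
    rw [h2] at h1
    show _ ≤ finrank ℂ (Co a b ⧸ (chart i j (col N' x) ⊔ mx w ^ K)) + _ + _
    omega

/-- **`U5`.** -/
theorem u5 : U5 := by
  intro a b P i j w _ _ _ hsm s F hF _ N _ hN l hl μ hμ
  -- the lower bound for the length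
  have h1 : ∀ K : ℕ, s ≤ K → (K : ℝ) * (K + 1) / 2 - ((K : ℝ) - s) * (K - s + 1) / 2 ≤
      ((l.map fun t => (finrank ℂ (Co a b ⧸ (chart i j t.1 ⊔ mx w ^ K)) : ℝ)).sum) := by
    intro K hK
    have h2 := finrank_le_add (A := chart i j P ⊔ mx w ^ (K - s))
      (B := chart i j P ⊔ mx w ^ K) F (by
        intro y hy
        obtain ⟨p, hp, r, hr, rfl⟩ := Submodule.mem_sup.1 hy
        obtain ⟨q, hq, t, ht, rfl⟩ := Submodule.mem_sup.1 hF
        have e : (q + t) * (p + r) = (q * (p + r) + t * p) + t * r := by ring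
        rw [e]
        refine Ideal.add_mem _ (Ideal.mem_sup_left (Ideal.add_mem _
          (Ideal.mul_mem_right _ _ hq) (Ideal.mul_mem_left _ _ hp))) (Ideal.mem_sup_right ?_)
        have h3 := Ideal.mul_mem_mul ht hr
        rwa [← pow_add, Nat.add_sub_cancel' hK] at h3)
      (fin_chart i j _ w _) (fin_chart i j _ w K)
    rw [hsm, hsm] at h2
    have h4 : chart i j P ⊔ mx w ^ K ⊔ Ideal.span {F} = chart i j N ⊔ mx w ^ K := by
      rw [hN]
      ac_rfl
    rw [h4] at h2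
    have h5 := chain_len i j w K hl
    have h6 : finrank ℂ (Co a b ⧸ (chart i j (⊤ : Ideal (Co a b)) ⊔ mx w ^ K)) = 0 := by
      have h7 : chart i j (⊤ : Ideal (Co a b)) ⊔ mx w ^ K = ⊤ := by
        unfold chart
        rw [top_sup_eq, top_sup_eq]
      rw [h7]
      have : Subsingleton (Co a b ⧸ (⊤ : Ideal (Co a b))) := Ideal.Quotient.subsingleton_iff.2 rfl
      exact Module.finrank_zero_of_subsingleton
    rw [h6, add_zero] at h5
    have h8 : K * (K + 1) / 2 ≤ (K - s) * (K - s + 1) / 2 +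
      (l.map fun t => finrank ℂ (Co a b ⧸ (chart i j t.1 ⊔ mx w ^ K))).sum := by omega
    have h9 : ((l.map fun t => finrank ℂ (Co a b ⧸ (chart i j t.1 ⊔ mx w ^ K))).sum : ℝ) =
        ((l.map fun t => (finrank ℂ (Co a b ⧸ (chart i j t.1 ⊔ mx w ^ K)) : ℝ)).sum) := by
      rw [Nat.cast_list_sum, List.map_map]
      rfl
    have e1 : ((K * (K + 1) / 2 : ℕ) : ℝ) = (K : ℝ) * (K + 1) / 2 := by
      rw [Nat.cast_div_charZero (Nat.even_mul_succ_self K).two_dvd]
      push_cast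
      ring
    have e2 : (((K - s) * (K - s + 1) / 2 : ℕ) : ℝ) = ((K : ℝ) - s) * (K - s + 1) / 2 := by
      rw [Nat.cast_div_charZero (Nat.even_mul_succ_self (K - s)).two_dvd]
      push_cast [Nat.cast_sub hK]
      ring
    have h10 : ((K * (K + 1) / 2 : ℕ) : ℝ) ≤ (((K - s) * (K - s + 1) / 2 : ℕ) : ℝ) +
        ((l.map fun t => finrank ℂ (Co a b ⧸ (chart i j t.1 ⊔ mx w ^ K))).sum : ℕ) := by
      exact_mod_cast h8
    rw [e1, e2, h9] at h10
    linarith
  -- the limits
  have hlim : Tendsto (fun K : ℕ => (l.map fun t =>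
      (finrank ℂ (Co a b ⧸ (chart i j t.1 ⊔ mx w ^ K)) : ℝ) / K).sum) atTop
      (𝓝 (l.map fun t => μ t.1).sum) := by
    refine tendsto_list_sum l fun t ht => ?_
    exact hμ t ht
  have hlow : Tendsto (fun K : ℕ => (s : ℝ) - (s : ℝ) ^ 2 / K) atTop (𝓝 ((s : ℝ) - 0)) :=
    tendsto_const_nhds.sub (tendsto_const_div_atTop_nhds_zero_nat _)
  rw [sub_zero] at hlow
  refine le_of_tendsto_of_tendsto hlow hlim ?_
  filter_upwards [eventually_ge_atTop (s + 1)] with K hK
  have hK0 : (0 : ℝ) < K := by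
    have : 0 < K := by omega
    exact_mod_cast this
  have h2 := h1 K (by omega)
  have h3 : (l.map fun t => (finrank ℂ (Co a b ⧸ (chart i j t.1 ⊔ mx w ^ K)) : ℝ) / K).sum =
      ((l.map fun t => (finrank ℂ (Co a b ⧸ (chart i j t.1 ⊔ mx w ^ K)) : ℝ)).sum) / K := by
    simp only [div_eq_mul_inv]
    rw [List.sum_map_mul_right]
  rw [h3, le_div_iff₀ hK0]
  refine le_trans ?_ h2
  have h4 : ((s : ℝ) - (s : ℝ) ^ 2 / K) * K = s * K - (s : ℝ) ^ 2 := by
    field_simp
  rw [h4]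
  nlinarith [sq_nonneg (s : ℝ), Nat.cast_nonneg (α := ℝ) s]

end Pool.Agent.TH471.N4
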