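import Pool.Agent.TH306.N4.StmtsV
import Pool.Agent.TH692.GR.G9

/-!
# V3: the degrees of the components of the divisor of a section of `m A - p B` (helper471)
-/

set_option autoImplicit false

open MvPolynomial Module Filter Topology

namespace Pool.Agent.TH471.N4.V

open Pool.Agent.TH279.GR Pool.Agent.TH692.GR Pool.Agent.TH306.N4

variable {a b : ℕ}

/-- telescoping with steps `(m, -p)` -/
lemma tel {P : Ideal (Co a b)} {D E C : ℤ} {n1 m p : ℕ}
    (h : ∀ u v : ℕ, n1 ≤ u → n1 ≤ v →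
      (hf P (u + m) v : ℤ) = hf P u (v + p) + (D * (u + m) + E * v + C)) (J : ℕ) :
    ∀ u v : ℕ, n1 ≤ u → n1 ≤ v →
    2 * (hf P (u + J * m) v : ℤ) = 2 * hf P u (v + J * p) +
      (2 * J * (D * u + E * v + C) + D * m * (J * (J + 1)) + E * p * (J * (J - 1))) := by
  induction J with
  | zero => intro u v _ _; simp
  | succ J ih =>
    intro u v hu hv
    have h1 := h (u + J * m) v (by omega) hv
    have h2 := ih u (v + p) hu (by omega)
    have e1 : u + (J + 1) * m = u + J * m + m := by ring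
    have e2 : v + (J + 1) * p = v + p + J * p := by ring
    rw [e1, e2, h1, mul_add, h2]
    push_cast
    ring

lemma lim_eq {P : Ideal (Co a b)} {α β γ : ℝ} (hP : Surf P α β γ) {D E C : ℤ} {n1 m p : ℕ}
    (h : ∀ u v : ℕ, n1 ≤ u → n1 ≤ v →
      (hf P (u + m) v : ℤ) = hf P u (v + p) + (D * (u + m) + E * v + C))
    (x y : ℕ) (hx : 1 ≤ x) (hy : 1 ≤ y) :
    (α * (x + m) ^ 2 + 2 * β * (x + m) * y + γ * y ^ 2) -
      (α * x ^ 2 + 2 * β * x * (y + p) + γ * (y + p) ^ 2) =
      2 * (D * x + E * y) + D * m + E * p := by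
  have h1 := (hP.growth (x + m) y (by omega) hy).sub (hP.growth x (y + p) hx (by omega))
  have h2 : Tendsto (fun t : ℕ => (2 * (D * x + E * y) + D * m + E * p : ℝ) +
      (2 * C + D * m - E * p) * (1 / (t : ℝ))) atTop
      (𝓝 ((2 * (D * x + E * y) + D * m + E * p : ℝ) + (2 * C + D * m - E * p) * 0)) :=
    tendsto_const_nhds.add (tendsto_one_div_atTop_nhds_zero_nat.const_mul _)
  have h3 : (fun t : ℕ => (2 * (D * x + E * y) + D * m + E * p : ℝ) +
      (2 * C + D * m - E * p) * (1 / (t : ℝ))) =ᶠ[atTop]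
      fun t : ℕ => 2 * (hf P ((x + m) * t) (y * t) : ℝ) / (t : ℝ) ^ 2 -
        2 * (hf P (x * t) ((y + p) * t) : ℝ) / (t : ℝ) ^ 2 := by
    filter_upwards [eventually_ge_atTop (n1 + 1)] with t ht
    have ht0 : (t : ℝ) ≠ 0 := by
      have : 0 < t := by omega
      exact_mod_cast this.ne'
    have hu : n1 ≤ x * t := by nlinarith
    have hv : n1 ≤ y * t := by nlinarith
    have h4 := tel h t (x * t) (y * t) hu hv
    have e1 : (x + m) * t = x * t + t * m := by ring
    have e2 : (y + p) * t = y * t + t * p := by ring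
    have h5 : 2 * (hf P (x * t + t * m) (y * t) : ℝ) = 2 * hf P (x * t) (y * t + t * p) +
        (2 * t * (D * (x * t) + E * (y * t) + C) + D * m * (t * (t + 1)) +
          E * p * (t * (t - 1))) := by
      exact_mod_cast h4
    rw [e1, e2, h5]
    field_simp
    ring
  have h6 := tendsto_nhds_unique (h2.congr' h3) h1
  push_cast at h6
  linarith

end Pool.Agent.TH471.N4.V

namespace Pool.Agent.TH471.N4

open Pool.Agent.TH279.GR Pool.Agent.TH692.GR Pool.Agent.TH306.N4

theorem v3 : V3 := by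
  intro a b P α β γ hP m p N _ _ hN l hc dA dB hl h0
  have hl' : ∀ t ∈ l, ∃ c0 : ℤ, Lin t.1 (dA t.1) (dB t.1) c0 := by
    intro t ht
    by_cases hr : TH279.GR.Rel t.1
    · exact hl t ht hr
    · obtain ⟨n0, hn0⟩ := G3.hf_irrel hr
      obtain ⟨e1, e2⟩ := h0 t ht hr
      refine ⟨0, n0, fun u v hu hv => ?_⟩
      rw [hn0 u v hu hv, e1, e2]
      simp
  obtain ⟨n1, C, h1⟩ := list_lin dA dB l hl'
  obtain ⟨n0, hn0, h2⟩ := G2.chain_hf hc
  obtain ⟨n2, h3⟩ := hN
  have h4 : ∀ u v : ℕ, n0 + n1 + n2 ≤ u → n0 + n1 + n2 ≤ v →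
      (hf P (u + m) v : ℤ) = hf P u (v + p) +
      (((l.map fun t => dA t.1).sum : ℕ) * (u + m) + ((l.map fun t => dB t.1).sum : ℕ) * v +
        C) := by
    intro u v hu hv
    have h5 := h2 (u + m) v (by omega) (by omega)
    rw [hf_top, zero_add] at h5
    have h6 := h1 (u + m) v (by omega) (by omega)
    have h7 := h3 u v (by omega) (by omega)
    rw [← h7, h5, Nat.cast_add, h6]
    push_cast
    ring
  have e0 : (l.map fun t => (dA t.1 : ℝ) - dB t.1).sum =
      (((l.map fun t => dA t.1).sum : ℕ) : ℝ) - ((l.map fun t => dB t.1).sum : ℕ) := by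
    clear hc hl h0 hl' h1 h2 hn0 h4
    induction l with
    | nil => simp
    | cons t l ih =>
      simp only [List.map_cons, List.sum_cons, ih]
      push_cast
      ring
  rw [e0]
  generalize (l.map fun t => dA t.1).sum = DA at h4 ⊢
  generalize (l.map fun t => dB t.1).sum = DB at h4 ⊢
  have e1 := V.lim_eq hP h4 1 1 le_rfl le_rfl
  have e2 := V.lim_eq hP h4 2 1 (by norm_num) le_rfl
  have e3 := V.lim_eq hP h4 1 2 le_rfl (by norm_num)
  push_cast at e1 e2 e3 ⊢
  linarith

end Pool.Agent.TH471.N4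

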