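import Mathlib

/-!
Cubic growth from three algebraically independent elements.
-/

set_option autoImplicit false

open MvPolynomial Module

namespace Pool.Agent.TH471.N4.J

/-- pairs with `j + k < K` -/
def R2 (K : ℕ) : Finset (ℕ × ℕ) :=
  ((Finset.range K) ×ˢ (Finset.range K)).filter fun p => p.1 + p.2 < K

theorem mem_R2 {K : ℕ} {p : ℕ × ℕ} : p ∈ R2 K ↔ p.1 + p.2 < K := by
  simp only [R2, Finset.mem_filter, Finset.mem_product, Finset.mem_range]
  omega

theorem card_R2 (K : ℕ) : (R2 K).card = (K + 1).choose 2 := by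
  induction K with
  | zero => rfl
  | succ s ih =>
    have h1 : R2 (s + 1) = R2 s ∪ Finset.HasAntidiagonal.antidiagonal s := by
      ext p
      rw [Finset.mem_union, mem_R2, mem_R2, Finset.HasAntidiagonal.mem_antidiagonal]
      omega
    have h2 : Disjoint (R2 s) (Finset.HasAntidiagonal.antidiagonal s) := by
      rw [Finset.disjoint_left]
      intro p hp hq
      rw [mem_R2] at hp
      rw [Finset.HasAntidiagonal.mem_antidiagonal] at hq
      omega
    rw [h1, Finset.card_union_of_disjoint h2, ih, Finset.Nat.card_antidiagonal,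
      Nat.choose_succ_succ' (s + 1) 1, Nat.choose_one_right, add_comm]

/-- triples with `i + j + k ≤ t` -/
def R3 (t : ℕ) : Finset (Σ _ : ℕ, ℕ × ℕ) :=
  (Finset.range (t + 1)).sigma fun i => R2 (t + 1 - i)

theorem mem_R3 {t : ℕ} {e : Σ _ : ℕ, ℕ × ℕ} : e ∈ R3 t ↔ e.1 + e.2.1 + e.2.2 ≤ t := by
  rw [R3, Finset.mem_sigma, Finset.mem_range, mem_R2]
  omega

theorem card_R3 (t : ℕ) : (R3 t).card = (t + 3).choose 3 := by
  rw [R3, Finset.card_sigma]
  have h1 : ∑ i ∈ Finset.range (t + 1), (R2 (t + 1 - i)).card =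
      ∑ i ∈ Finset.range (t + 1), (i + 2).choose 2 := by
    rw [← Finset.sum_range_reflect]
    refine Finset.sum_congr rfl fun i hi => ?_
    have hi' := Finset.mem_range.1 hi
    rw [card_R2]
    congr 1
    omega
  rw [h1]
  clear h1
  induction t with
  | zero => rfl
  | succ t ih =>
    rw [Finset.sum_range_succ, ih, Nat.choose_succ_succ' (t + 3) 2, add_comm]

/-- the exponent vector -/
noncomputable def vec (e : Σ _ : ℕ, ℕ × ℕ) : Fin 3 →₀ ℕ :=
  Finsupp.equivFunOnFinite.symm ![e.1, e.2.1, e.2.2]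

theorem vec_inj : Function.Injective vec := by
  rintro ⟨i, j, k⟩ ⟨i', j', k'⟩ h
  have h1 := Finsupp.equivFunOnFinite.symm.injective h
  have e0 := congrFun h1 0
  have e1 := congrFun h1 1
  have e2 := congrFun h1 2
  simp at e0 e1 e2
  rw [e0, e1, e2]

/-- **Cubic growth.** -/
theorem growth_three {F K : Type*} [Field F] [Field K] [Algebra F K] {W : Submodule F K}
    [FiniteDimensional F W] {a b c q : K} (hq : q ≠ 0)
    (hind : AlgebraicIndependent F ![a, b, c]) (hq' : q ∈ W) (ha : a * q ∈ W) (hb : b * q ∈ W)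
    (hc : c * q ∈ W) (t : ℕ) :
    (t + 3).choose 3 ≤ finrank F (W ^ t : Submodule F K) := by
  classical
  let L : MvPolynomial (Fin 3) F →ₗ[F] K :=
    (LinearMap.mulRight F (q ^ t)) ∘ₗ (aeval ![a, b, c] : MvPolynomial (Fin 3) F →ₐ[F] K).toLinearMap
  have hL : LinearMap.ker L = ⊥ := by
    rw [LinearMap.ker_eq_bot']
    intro p hp
    have h1 : aeval ![a, b, c] p * q ^ t = 0 := hp
    have h2 := (mul_eq_zero.1 h1).resolve_right (pow_ne_zero _ hq)
    exact algebraicIndependent_iff.1 hind p h2
  let f : R3 t → K := fun e => L (monomial (vec e.1) 1)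
  have hf : LinearIndependent F f := by
    have h1 : LinearIndependent F (fun e : R3 t => (monomial (vec e.1) (1 : F))) := by
      have h2 := (basisMonomials (Fin 3) F).linearIndependent.comp (fun e : R3 t => vec e.1)
        (fun e e' h => Subtype.ext (vec_inj h))
      have h3 : (fun e : R3 t => (monomial (vec e.1) (1 : F))) =
          (basisMonomials (Fin 3) F) ∘ fun e : R3 t => vec e.1 := by
        funext e
        rw [coe_basisMonomials]
        rfl
      rw [h3]
      exact h2
    exact h1.map' L hL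
  have hmem : ∀ e, f e ∈ W ^ t := by
    rintro ⟨⟨i, j, k⟩, he⟩
    have he' : i + j + k ≤ t := mem_R3.1 he
    have h1 : f ⟨⟨i, j, k⟩, he⟩ = (a * q) ^ i * (b * q) ^ j * (c * q) ^ k * q ^ (t - (i + j + k)) := by
      show aeval ![a, b, c] (monomial (vec ⟨i, j, k⟩) 1) * q ^ t = _
      rw [aeval_monomial, map_one, one_mul, Finsupp.prod_fintype _ _ (fun _ => pow_zero _),
        Fin.prod_univ_three]
      have h2 : q ^ t = q ^ i * q ^ j * q ^ k * q ^ (t - (i + j + k)) := by
        rw [← pow_add, ← pow_add, ← pow_add, Nat.add_sub_cancel' he']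
      rw [h2]
      simp [vec]
      ring
    rw [h1]
    have h3 : W ^ t = W ^ i * W ^ j * W ^ k * W ^ (t - (i + j + k)) := by
      rw [← pow_add, ← pow_add, ← pow_add, Nat.add_sub_cancel' he']
    rw [h3]
    exact Submodule.mul_mem_mul (Submodule.mul_mem_mul (Submodule.mul_mem_mul
      (Submodule.pow_mem_pow _ ha i) (Submodule.pow_mem_pow _ hb j))
      (Submodule.pow_mem_pow _ hc k)) (Submodule.pow_mem_pow _ hq' _)
  have hfin : FiniteDimensional F (W ^ t : Submodule F K) := by
    have h1 : W.FG := Module.Finite.iff_fg.1 inferInstance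
    exact Module.Finite.iff_fg.2 (h1.pow t)
  have h1 : finrank F (Submodule.span F (Set.range f)) = Fintype.card (R3 t) :=
    finrank_span_eq_card hf
  rw [Fintype.card_coe, card_R3] at h1
  rw [← h1]
  refine Submodule.finrank_mono ?_
  rw [Submodule.span_le]
  rintro _ ⟨e, rfl⟩
  exact hmem e

end Pool.Agent.TH471.N4.J
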