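import Pool.Agent.TH471.N4.U4
import Pool.Agent.TH471.N4.U5
import Pool.Agent.TH471.N4.J3

/-!
The interface statements `S4`, `U4`, `U5` and the transcendence degree, unconditionally.
-/

set_option autoImplicit false

open MvPolynomial Module

namespace Pool.Agent.TH471.N4.F

open Pool.Agent.TH279.GR Pool.Agent.TH306.N4

theorem j3 : Pool.Agent.TH471.N4.J3 := by
  intro K _ _ W _ _ a b c q hq hind hq' ha hb hc t
  exact Pool.Agent.TH471.N4.J.growth_three hq hind hq' ha hb hc t

/-- **`S4`.** -/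
theorem s4 : S4 := Pool.Agent.TH471.N4.s4 j3

/-- **`U4`.** -/
theorem u4 : U4 := Pool.Agent.TH471.N4.u4 j3

/-- **`U5`.** -/
theorem u5 : U5 := Pool.Agent.TH471.N4.u5

/-- **`TR`.** -/
theorem tr : Pool.Agent.TH471.N4.TR := Pool.Agent.TH471.N4.tr_of j3

variable {a b : ℕ} {P : Ideal (Co a b)} {α β γ : ℝ} {i : Fin (a + 1)} {j : Fin (b + 1)}
  {FF : Type} [Field FF] [Algebra ℂ FF] {π : Co a b →ₐ[ℂ] FF}

/-- three elements of the function field are dependent -/
theorem no3 (hS : Surf P α β γ) (hM : Mod P i j π) (x y z : FF) :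
    ¬ AlgebraicIndependent ℂ ![x, y, z] := Pool.Agent.TH471.N4.no3 j3 hS hM x y z

/-- a transcendental element is part of a transcendence basis with two elements -/
theorem exists_basis (hS : Surf P α β γ) (hM : Mod P i j π) (g : FF)
    (hg : Transcendental ℂ g) :
    ∃ y : FF, AlgebraicIndependent ℂ ![g, y] ∧
      ∀ z : FF, IsAlgebraic (IntermediateField.adjoin ℂ {g, y}) z :=
  Pool.Agent.TH471.N4.exists_basis j3 hS hM g hg

end Pool.Agent.TH471.N4.F
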