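import Pool.Agent.TH471.N4.T5
import Pool.Agent.TH306.N4.FinZ

/-!
A non-constant function on the chart (helper471).
-/

set_option autoImplicit false

open MvPolynomial Module

namespace Pool.Agent.TH471.N4

open Pool.Agent.TH279.GR Pool.Agent.TH306.N4

theorem nonConst : NonConst := by
  intro a b P α β γ hS i j hi hj
  obtain ⟨FF, _, _, π, hM⟩ := Pool.Agent.TH611.M5.exists_Mod hS.prime hS.hom hi hj
  obtain ⟨w, hw, htr⟩ := not_alg' hS hM 0
  obtain ⟨f, _, rfl⟩ := hw
  refine ⟨f, fun c hc => htr ?_⟩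
  have h1 : π f = algebraMap ℂ FF c := by
    have h2 := (hM.ker _).2 hc
    rw [map_sub, sub_eq_zero] at h2
    rw [h2]
    exact π.commutes c
  have h3 : π.toLinearMap f = algebraMap ℂ FF c := h1
  rw [h3, IsScalarTower.algebraMap_apply ℂ (IntermediateField.adjoin ℂ {(0 : FF)}) FF]
  exact isAlgebraic_algebraMap _

end Pool.Agent.TH471.N4

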