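import Pool.Agent.TH306.N4.Stmts
import Pool.Agent.TH279.Core.Out
import Pool.Agent.TH974.DerConst
import Pool.Agent.TH471.M5.Main

/-!
The interface statement `S4`: from the core at the generic point (helper279) and the descent `m5`.
-/

set_option autoImplicit false

open MvPolynomial Module

namespace Pool.Agent.TH471.N4

open Pool.Agent.TH279.GR Pool.Agent.TH880.NB Pool.Agent.TH176.Nag Pool.Agent.TH306.N4

theorem ev_of_isAlgebraic {FF : Type} [Field FF] [Algebra ℂ FF] {x y z : FF}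
    (h : IsAlgebraic (IntermediateField.adjoin ℂ {x, y}) z) :
    ∃ Q : Pool.Agent.W607.BB ℂ, Q ≠ 0 ∧ Pool.Agent.W607.ev (K := ℂ) x y z Q = 0 := by
  rw [← Pool.Agent.TH974.N4.isAlgebraic_adjoin_iff] at h
  obtain ⟨p, hp0, hp⟩ := h
  have hx : x ∈ Algebra.adjoin ℂ ({x, y} : Set FF) := Algebra.subset_adjoin (by simp)
  have hy : y ∈ Algebra.adjoin ℂ ({x, y} : Set FF) := Algebra.subset_adjoin (by simp)
  let r : Pool.Agent.W607.AA ℂ →ₐ[ℂ] Algebra.adjoin ℂ ({x, y} : Set FF) :=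
    aeval ![⟨x, hx⟩, ⟨y, hy⟩]
  have hr : ∀ q, ((r q : Algebra.adjoin ℂ ({x, y} : Set FF)) : FF) = aeval ![x, y] q := by
    intro q
    have h1 := MvPolynomial.comp_aeval_apply
      (![⟨x, hx⟩, ⟨y, hy⟩] : Fin 2 → Algebra.adjoin ℂ ({x, y} : Set FF))
      (Algebra.adjoin ℂ ({x, y} : Set FF)).val q
    refine h1.trans ?_
    congr 2
    ext i
    fin_cases i <;> rfl
  have hsurj : Function.Surjective
      (r : Pool.Agent.W607.AA ℂ →+* Algebra.adjoin ℂ ({x, y} : Set FF)) := by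
    rintro ⟨z, hz⟩
    have h1 : Algebra.adjoin ℂ ({x, y} : Set FF) =
        (aeval ![x, y] : Pool.Agent.W607.AA ℂ →ₐ[ℂ] FF).range := by
      rw [← Algebra.adjoin_range_eq_range_aeval]
      congr 1
      ext t
      simp only [Matrix.range_cons, Matrix.range_empty, Set.union_empty]
      rfl
    have h2 := hz
    rw [h1] at h2
    obtain ⟨q, hq⟩ := h2
    exact ⟨q, Subtype.ext ((hr q).trans hq)⟩
  obtain ⟨Q, hQ⟩ := Polynomial.map_surjective _ hsurj p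
  refine ⟨Q, ?_, ?_⟩
  · rintro rfl
    rw [Polynomial.map_zero] at hQ
    exact hp0 hQ.symm
  · have h1 : ((aeval ![x, y] : Pool.Agent.W607.AA ℂ →ₐ[ℂ] FF) : Pool.Agent.W607.AA ℂ →+* FF) =
        (algebraMap (Algebra.adjoin ℂ ({x, y} : Set FF)) FF).comp
          (r : Pool.Agent.W607.AA ℂ →+* Algebra.adjoin ℂ ({x, y} : Set FF)) := by
      ext q
      · simp
      · exact (hr _).symm
    unfold Pool.Agent.W607.ev
    rw [Polynomial.coe_eval₂RingHom, h1, ← Polynomial.eval₂_map, hQ]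
    exact hp

theorem tuple_iff {a b n : ℕ} {P : Ideal (Co a b)} {i : Fin (a + 1)} {j : Fin (b + 1)}
    {FF : Type} [Field FF] [Algebra ℂ FF] {π : Co a b →ₐ[ℂ] FF} (hM : Mod P i j π)
    (w : Fin n → Ix a b → ℂ) :
    Tuple i j P w ↔ ∀ q, ∀ f, π f = 0 → eval (w q) f = 0 := by
  constructor
  · intro h q f hf
    obtain ⟨h1, h2, h3⟩ := h q
    have hle : chart i j P ≤ RingHom.ker (eval (w q) : Co a b →+* ℂ) := by
      refine sup_le (fun F hF => h3 F hF) ?_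
      rw [Ideal.span_le]
      rintro F (rfl | rfl)
      · simp [RingHom.mem_ker, h1]
      · simp [RingHom.mem_ker, h2]
    exact hle ((hM.ker f).1 hf)
  · intro h q
    have h1 : ∀ f ∈ chart i j P, eval (w q) f = 0 := fun f hf => h q f ((hM.ker f).2 hf)
    refine ⟨?_, ?_, fun F hF => h1 F (Ideal.mem_sup_left hF)⟩
    · have := h1 (X (Sum.inl i) - 1) (Ideal.mem_sup_right (Ideal.subset_span (by simp)))
      simpa [sub_eq_zero] using this
    · have := h1 (X (Sum.inr j) - 1) (Ideal.mem_sup_right (Ideal.subset_span (by simp)))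
      simpa [sub_eq_zero] using this

/-- the transcendence degree of the function field is two -/
def TR : Prop :=
  ∀ (a b : ℕ) (P : Ideal (Co a b)) (α β γ : ℕ), Surf P α β γ →
    ∀ (i : Fin (a + 1)) (j : Fin (b + 1)) (FF : Type) [Field FF] [Algebra ℂ FF]
    (π : Co a b →ₐ[ℂ] FF), Mod P i j π → ∀ g : FF, Transcendental ℂ g →
    ∃ y : FF, AlgebraicIndependent ℂ ![g, y] ∧
      ∀ z : FF, IsAlgebraic (IntermediateField.adjoin ℂ {g, y}) z

/-- dual commuting derivations -/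
def DER : Prop :=
  ∀ (FF : Type) [Field FF] [Algebra ℂ FF] (g y : FF), AlgebraicIndependent ℂ ![g, y] →
    (∀ z : FF, IsAlgebraic (IntermediateField.adjoin ℂ {g, y}) z) →
    ∃ D1 D2 : Derivation ℂ FF FF, D1 g = 1 ∧ D1 y = 0 ∧ D2 g = 0 ∧ D2 y = 1 ∧
      ∀ z, D1 (D2 z) = D2 (D1 z)

/-- `S4` with the open set -/
theorem s4H (h0 : S0) (hTR : TR) (hDER : DER) (a b : ℕ) (P : Ideal (Co a b)) (α β γ : ℕ)
    (hS : Surf P α β γ) (i : Fin (a + 1)) (j : Fin (b + 1)) (FF : Type) [Field FF]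
    [Algebra ℂ FF] (π : Co a b →ₐ[ℂ] FF) (hM : Mod P i j π)
    (hfin : ∀ m, FiniteDimensional ℂ (SecM π m)) (k : ℕ) (g₁ g₂ : FF) (hP : Pencil π k g₁ g₂)
    (n m s : ℕ) (T : Finset (ℤ × ℤ)) (hTc : T.card = n * (s + 1).choose 2)
    (hTE : Emp (fun _ : Fin n => s) (T : Set (ℤ × ℤ)))
    (hT : ∀ p ∈ T, 0 ≤ p.1 ∧ 0 ≤ p.2 ∧ (k : ℤ) * p.2 ≤ m ∧
      p.1 < rk π (g₁ / g₂) (m - k * p.2.toNat)) :
    ∃ H : MvPolynomial (Fin n × Ix a b) ℂ,
      (∃ w : Fin n → Ix a b → ℂ, Tuple i j P w ∧ eval (fun p => w p.1 p.2) H ≠ 0) ∧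
      ∀ w : Fin n → Ix a b → ℂ, Tuple i j P w → eval (fun p => w p.1 p.2) H ≠ 0 →
        SepV (chart i j P) (fun F => Sec π m (π F)) s w := by
  obtain ⟨y, hind, halg⟩ := hTR a b P α β γ hS i j FF π hM (g₁ / g₂) hP.tr
  obtain ⟨D1, D2, h11, h12, h21, h22, hcomm⟩ := hDER FF (g₁ / g₂) y hind halg
  have hsec : ∀ m ψ, ψ ∈ SecM π m ↔ Sec π m ψ := fun m ψ => (h0 a b P i j FF π hM m).1 ψ
  have hspan : ∀ m, (SecM π m : Set FF) = {ψ | Sec π m ψ} := by
    intro m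
    ext ψ
    exact hsec m ψ
  obtain ⟨Om, _, _, Psi, hPsi⟩ := Pool.Agent.TH279.Core.core
    (κ := IntermediateField.adjoin ℂ {g₁ / g₂}) D1 D2 hcomm (a := g₁) (b := g₂) (g := g₁ / g₂)
    (by rw [div_mul_cancel₀ _ hP.ne₂]) hP.ne₂ h11 h21
    (fun z hz => ⟨⟨z, hP.closed z
      (Pool.Agent.TH974.N4.der_const (g₁ / g₂) y hind halg D2 h21 h22 z hz)⟩, rfl⟩)
    (SecM π) (fun m m' x hx y hy => (hsec _ _).2
      ((h0 a b P i j FF π hM m).2.1 x ((hsec _ _).1 hx) m' y ((hsec _ _).1 hy)))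
    (k := k) ((hsec _ _).2 hP.sec₁) ((hsec _ _).2 hP.sec₂) n s m T hTc hTE
    (by
      intro p hp
      obtain ⟨h1, h2, h3, h4⟩ := hT p hp
      refine ⟨h1, h2, h3, ?_⟩
      rw [hspan]
      exact h4)
  obtain ⟨H, ⟨w, hw, hwH⟩, hH⟩ := Pool.Agent.TH471.M5.m5 π hM.frac (g₁ / g₂) y D1 D2
    h11 h12 h21 h22 (fun z => ev_of_isAlgebraic (halg z))
    (fun Q hQ => (algebraicIndependent_iff.1 hind) Q hQ) (SecM π m)
    (fun f hf => (h0 a b P i j FF π hM m).2.2 f ((hsec _ _).1 hf)) n s Psi hPsi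
  refine ⟨H, ⟨w, (tuple_iff hM w).2 hw, hwH⟩, fun w hw hwH q f => ?_⟩
  obtain ⟨G, hG, h1, h2⟩ := hH w ((tuple_iff hM w).1 hw) hwH q f
  have hker : RingHom.ker π = chart i j P := by
    ext f
    rw [RingHom.mem_ker, hM.ker]
  rw [hker] at h1 h2
  exact ⟨G, (hsec _ _).1 hG, h1, h2⟩

/-- **The interface statement `S4`.** -/
theorem s4_of (h0 : S0) (hTR : TR) (hDER : DER) : S4 := by
  intro a b P α β γ hS i j FF _ _ π hM hfin k g₁ g₂ hP n m s _ T hTc hTE hT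
  obtain ⟨H, ⟨w, hw, hwH⟩, hH⟩ := s4H h0 hTR hDER a b P α β γ hS i j FF π hM hfin k g₁ g₂ hP n m s
    T hTc hTE hT
  exact ⟨w, hw, hH w hw hwH⟩

end Pool.Agent.TH471.N4
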