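import Pool.Agent.TH471.N4.Fin
import Pool.Agent.TH493.NEF.Mul
import Pool.Agent.TH75.J4609

/-!
Two algebraically independent ratios of sections of the same degree.
-/

set_option autoImplicit false

open MvPolynomial Module Filter Topology

namespace Pool.Agent.TH471.N4

open Pool.Agent.TH279.GR Pool.Agent.TH306.N4

variable {a b : ℕ} {P : Ideal (Co a b)} {α β γ : ℝ} {i : Fin (a + 1)} {j : Fin (b + 1)}
  {FF : Type} [Field FF] [Algebra ℂ FF] {π : Co a b →ₐ[ℂ] FF}

theorem not_alg' (hS : Surf P α β γ) (hM : Mod P i j π) (g : FF) :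
    ∃ w ∈ TT π 1 1, Transcendental (IntermediateField.adjoin ℂ {g}) w := by
  by_contra hne
  push Not at hne
  obtain ⟨C, hC⟩ := Pool.Agent.TH448.N4.growth_one (F := ℂ) (K := FF) (W := TT π 1 1)
    (one_mem_TT hM 1 1) (z := g) (fun w hw => by
      have := hne w hw
      rwa [Transcendental, not_not] at this)
  have hlin : ∀ t : ℕ, 1 ≤ t → hf P t t ≤ C * (t + 1) := by
    intro t ht
    have h4 := hC t
    rwa [TT_pow π 1 t ht, one_mul, finrank_TT hM] at h4
  have hgr := hS.growth 1 1 le_rfl le_rfl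
  have hpos := hS.pos
  set c : ℝ := α * ((1 : ℕ) : ℝ) ^ 2 + 2 * β * ((1 : ℕ) : ℝ) * ((1 : ℕ) : ℝ) +
    γ * ((1 : ℕ) : ℝ) ^ 2 with hc
  have hc0 : 0 < c := by
    rw [hc]
    push_cast
    linarith
  have hev : ∀ᶠ t : ℕ in atTop, c / 2 < 2 * (hf P (1 * t) (1 * t) : ℝ) / (t : ℝ) ^ 2 :=
    hgr.eventually_const_lt (by linarith)
  obtain ⟨t0, ht0⟩ := Filter.eventually_atTop.1 hev
  obtain ⟨t1, ht1⟩ := exists_nat_gt (8 * C / c)
  set t := t0 + t1 + 1 with ht
  have h5 := ht0 t (by omega)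
  rw [one_mul] at h5
  have h6 := hlin t (by omega)
  have htpos : (1 : ℝ) ≤ t := by
    have : 1 ≤ t := by omega
    exact_mod_cast this
  rw [lt_div_iff₀ (by positivity)] at h5
  have h8 : (hf P t t : ℝ) ≤ C * (t + 1) := by exact_mod_cast h6
  have h9 : c / 2 * (t : ℝ) ^ 2 < 4 * C * t := by
    have hC0 : (0 : ℝ) ≤ C := Nat.cast_nonneg _
    nlinarith
  have h10 : c / 2 * (t : ℝ) < 4 * C := by
    have h11 : c / 2 * (t : ℝ) * t < 4 * C * t := by
      calc c / 2 * (t : ℝ) * t = c / 2 * (t : ℝ) ^ 2 := by ring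
        _ < _ := h9
    exact lt_of_mul_lt_mul_right h11 (by positivity)
  have h11 : (t1 : ℝ) ≤ t := by
    rw [ht]
    push_cast
    have : (0 : ℝ) ≤ t0 := Nat.cast_nonneg _
    linarith
  have h12 : 8 * C / c < t := lt_of_lt_of_le ht1 h11
  rw [div_lt_iff₀ hc0] at h12
  linarith

theorem TT_mono (hM : Mod P i j π) {u v u' v' : ℕ} (hu : u ≤ u') (hv : v ≤ v') :
    TT π u v ≤ TT π u' v' := by
  obtain ⟨d, rfl⟩ := Nat.exists_eq_add_of_le hu
  obtain ⟨e, rfl⟩ := Nat.exists_eq_add_of_le hv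
  rw [Pool.Agent.TH880.N4.TT_add]
  intro x hx
  have := Submodule.mul_mem_mul hx (one_mem_TT hM d e)
  rwa [mul_one] at this

/-- a uniform twist for a finite-dimensional space of sections -/
theorem exists_twist (hM : Mod P i j π) (m : ℕ) (hfin : FiniteDimensional ℂ (SecM π m)) :
    ∃ c : ℕ, ∀ u v : ℕ, c ≤ u → c ≤ v → SecM π m * TT π u (v + m) ≤ TT π (u + m) v := by
  classical
  have hsec : ∀ ψ, ψ ∈ SecM π m ↔ Sec π m ψ :=
    fun ψ => (Pool.Agent.TH880.N4.s0 a b P i j FF π hM m).1 ψ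
  obtain ⟨S, hS⟩ : (SecM π m).FG := Module.Finite.iff_fg.1 hfin
  have hSR : ∀ ψ ∈ S, Sec π m ψ := fun ψ hψ => (hsec ψ).1 (by
    rw [← hS]; exact Submodule.subset_span hψ)
  choose! c hc using hSR
  refine ⟨∑ ψ ∈ S, c ψ, fun u v hu hv => ?_⟩
  rw [← hS, Submodule.mul_le]
  intro ψ hψ f hf
  induction hψ using Submodule.span_induction with
  | mem ψ hψ =>
    have h1 : c ψ ≤ ∑ ψ ∈ S, c ψ := Finset.single_le_sum (f := c) (fun _ _ => Nat.zero_le _) hψ
    exact Pool.Agent.TH880.N4.Sec_all (hc ψ hψ) (h1.trans hu) (h1.trans hv) f hf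
  | zero => rw [zero_mul]; exact Submodule.zero_mem _
  | add x y _ _ hx hy => rw [add_mul]; exact Submodule.add_mem _ hx hy
  | smul r x _ hx => rw [smul_mul_assoc]; exact Submodule.smul_mem _ _ hx

theorem pow_twist {m c : ℕ}
    (hc : ∀ u v : ℕ, c ≤ u → c ≤ v → SecM π m * TT π u (v + m) ≤ TT π (u + m) v) (t : ℕ) :
    ∀ u v : ℕ, c ≤ u → c ≤ v → (SecM π m) ^ t * TT π u (v + t * m) ≤ TT π (u + t * m) v := by
  induction t with
  | zero =>
    intro u v _ _
    rw [pow_zero, one_mul, zero_mul, add_zero, add_zero]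
  | succ t ih =>
    intro u v hu hv
    have e1 : v + (t + 1) * m = (v + t * m) + m := by ring
    have e2 : u + (t + 1) * m = (u + m) + t * m := by ring
    rw [pow_succ, mul_assoc, e1, e2]
    exact (mul_le_mul_right (hc u (v + t * m) hu (by omega)) _).trans
      (ih (u + m) v (by omega) hv)

/-- lower bound for the dimension of the powers -/
theorem finrank_pow_ge {R : Submodule ℂ FF} [FiniteDimensional ℂ R] (hR : R ≠ ⊥) (t : ℕ) :
    t * (finrank ℂ R - 1) + 1 ≤ finrank ℂ (R ^ t : Submodule ℂ FF) ∧ R ^ t ≠ ⊥ ∧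
      FiniteDimensional ℂ (R ^ t : Submodule ℂ FF) := by
  have hpos : 1 ≤ finrank ℂ R := by
    rw [Nat.one_le_iff_ne_zero, Ne, Submodule.finrank_eq_zero]
    exact hR
  induction t with
  | zero =>
    have h1 : (R ^ 0 : Submodule ℂ FF) = Submodule.span ℂ {(1 : FF)} := by
      rw [pow_zero, Submodule.one_eq_span]
    have h2 : finrank ℂ (R ^ 0 : Submodule ℂ FF) = 1 := by
      rw [h1]
      exact finrank_span_singleton one_ne_zero
    refine ⟨by omega, ?_, ?_⟩
    · intro h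
      rw [h, finrank_bot] at h2
      exact zero_ne_one h2
    · rw [h1]
      infer_instance
  | succ t ih =>
    obtain ⟨h1, h2, h3⟩ := ih
    have h4 := Pool.Agent.TH493.NEF.finrank_mul_field (F := ℂ) (K := FF) _ (R ^ t) R rfl h2 hR h3
      inferInstance
    have h5 : (R ^ t * R : Submodule ℂ FF) ≠ ⊥ := by
      obtain ⟨x, hx, hx0⟩ := Submodule.exists_mem_ne_zero_of_ne_bot h2
      obtain ⟨y, hy, hy0⟩ := Submodule.exists_mem_ne_zero_of_ne_bot hR
      intro h
      have := Submodule.mul_mem_mul hx hy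
      rw [h, Submodule.mem_bot] at this
      exact mul_ne_zero hx0 hy0 this
    have h6 : FiniteDimensional ℂ (R ^ t * R : Submodule ℂ FF) := by
      have g1 : (R ^ t).FG := Module.Finite.iff_fg.1 h3
      have g2 : R.FG := Module.Finite.iff_fg.1 inferInstance
      exact Module.Finite.iff_fg.2 (g1.mul g2)
    rw [pow_succ]
    refine ⟨?_, h5, h6⟩
    have h7 : (t + 1) * (finrank ℂ R - 1) = t * (finrank ℂ R - 1) + (finrank ℂ R - 1) := by ring
    omega

/-- **Two algebraically independent ratios of sections.** -/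
theorem t5 (hS : Surf P α β γ) (hM : Mod P i j π)
    (hgrow : ∃ c : ℝ, 0 < c ∧ ∃ m₀ : ℕ, ∀ m, m₀ ≤ m → c * (m : ℝ) ^ 2 ≤ finrank ℂ (SecM π m)) :
    ∃ m : ℕ, 1 ≤ m ∧ ∃ ψ₀ ψ₁ ψ₂ : FF, Sec π m ψ₀ ∧ Sec π m ψ₁ ∧ Sec π m ψ₂ ∧ ψ₀ ≠ 0 ∧
      AlgebraicIndependent ℂ ![ψ₁ / ψ₀, ψ₂ / ψ₀] := by
  by_contra hno
  push Not at hno
  obtain ⟨c0, hc0, m₀, hm₀⟩ := hgrow
  set δ : ℝ := α + 2 * β + γ with hδ
  have hδ0 : 0 < δ := hS.pos
  -- the choice of the degree
  obtain ⟨m1, hm1⟩ := exists_nat_gt ((9 * δ + 1) / c0)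
  set m := m₀ + m1 + 1 with hm
  have hm1' : 1 ≤ m := by omega
  have hmR : (1 : ℝ) ≤ m := by exact_mod_cast hm1'
  have hD := hm₀ m (by omega)
  set D := finrank ℂ (SecM π m) with hDdef
  have hDpos : 0 < D := by
    have h1 : (0 : ℝ) < D := lt_of_lt_of_le (by positivity) hD
    exact_mod_cast h1
  have hfin : FiniteDimensional ℂ (SecM π m) := Module.finite_of_finrank_pos hDpos
  have hRne : SecM π m ≠ ⊥ := by
    intro h
    rw [hDdef, h, finrank_bot] at hDpos
    exact lt_irrefl _ hDpos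
  have hsec : ∀ ψ, ψ ∈ SecM π m ↔ Sec π m ψ :=
    fun ψ => (Pool.Agent.TH880.N4.s0 a b P i j FF π hM m).1 ψ
  obtain ⟨s1, hs1, hs10⟩ := Submodule.exists_mem_ne_zero_of_ne_bot hRne
  -- an element over which all ratios are algebraic
  obtain ⟨z, hz⟩ : ∃ z : FF, ∀ u ∈ SecM π m,
      IsAlgebraic (IntermediateField.adjoin ℂ {z}) (u / s1) := by
    by_cases hall : ∀ u ∈ SecM π m, IsAlgebraic ℂ (u / s1)
    · exact ⟨1, fun u hu => (hall u hu).tower_top _⟩
    · push Not at hall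
      obtain ⟨u1, hu1, htr⟩ := hall
      have htr' : Transcendental ℂ (u1 / s1) := htr
      refine ⟨u1 / s1, fun u hu => ?_⟩
      have h1 : AlgebraicIndependent ℂ ![u1 / s1] := by
        rw [algebraicIndependent_unique_type_iff]
        exact htr'
      have h2 := alg_of_not_indep ![u1 / s1] (u / s1) h1 (by
        intro h4
        refine hno m hm1' s1 u1 u ((hsec _).1 hs1) ((hsec _).1 hu1) ((hsec _).1 hu) hs10 ?_
        convert h4 using 1
        ext t
        fin_cases t <;> rfl)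
      rwa [show Set.range ![u1 / s1] = {u1 / s1} by
        rw [Matrix.range_cons, Matrix.range_empty, Set.union_empty]] at h2
  obtain ⟨w, hw, hwtr⟩ := not_alg' hS hM z
  -- the field of constants
  let κ : IntermediateField ℂ FF :=
    (algebraicClosure (IntermediateField.adjoin ℂ {z}) FF).restrictScalars ℂ
  have hκ : ∀ u ∈ SecM π m, u / s1 ∈ κ := fun u hu => mem_algebraicClosure_iff.2 (hz u hu)
  have hwκ : Transcendental κ w := hwtr.algebraicClosure
  have hκt : ∀ (t : ℕ), ∀ u ∈ (SecM π m) ^ t, u / s1 ^ t ∈ κ := by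
    intro t
    induction t with
    | zero =>
      intro u hu
      rw [pow_zero, Submodule.mem_one] at hu
      obtain ⟨r, rfl⟩ := hu
      rw [pow_zero, div_one]
      exact κ.algebraMap_mem r
    | succ t ih =>
      intro u hu
      rw [pow_succ] at hu
      induction hu using Submodule.mul_induction_on' with
      | mem_mul_mem x hx y hy =>
        have h1 : x * y / s1 ^ (t + 1) = (x / s1 ^ t) * (y / s1) := by
          rw [pow_succ]
          field_simp
        rw [h1]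
        exact κ.mul_mem (ih x hx) (hκ y hy)
      | add x _ y _ hx hy =>
        rw [add_div]
        exact κ.add_mem hx hy
  -- the twist
  obtain ⟨c, hc⟩ := exists_twist hM m hfin
  have hle : ∀ t, (SecM π m) ^ t ≤ TT π (c + t * m) (c + t * m) := by
    intro t x hx
    have h1 := Submodule.mul_mem_mul hx (one_mem_TT hM c (c + t * m))
    rw [mul_one] at h1
    exact TT_mono hM le_rfl (by omega) (pow_twist hc t c c le_rfl le_rfl h1)
  have hw' : ∀ T i : ℕ, i ≤ T → w ^ i ∈ TT π T T := by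
    intro T i hiT
    rcases Nat.eq_zero_or_pos i with rfl | hi
    · rw [pow_zero]
      exact one_mem_TT hM T T
    · have h1 := Submodule.pow_mem_pow _ hw i
      rw [TT_pow π 1 i hi, one_mul] at h1
      exact TT_mono hM hiT hiT h1
  -- the main inequality
  have hmain : ∀ t : ℕ, (t * m + 1) * (t * (D - 1) + 1) ≤
      hf P (c + t * m + t * m) (c + t * m + t * m) := by
    intro t
    obtain ⟨h1, h2, h3⟩ := finrank_pow_ge hRne t
    have h4 := Pool.Agent.TH75.J4609.powers κ hwκ (pow_ne_zero t hs10) (hκt t) (t * m)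
      (V := TT π (c + t * m + t * m) (c + t * m + t * m)) (fun u hu i hi => by
        rw [Pool.Agent.TH880.N4.TT_add]
        exact Submodule.mul_mem_mul (hle t hu) (hw' (t * m) i hi))
    rw [finrank_TT hM] at h4
    exact (Nat.mul_le_mul_left _ h1).trans h4
  -- growth
  have hgr := hS.growth 1 1 le_rfl le_rfl
  have hgr' : Tendsto (fun t : ℕ => 2 * (hf P (1 * t) (1 * t) : ℝ) / (t : ℝ) ^ 2) atTop
      (𝓝 δ) := by
    convert hgr using 2
    rw [hδ]
    push_cast
    ring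
  have hev : ∀ᶠ t : ℕ in atTop, 2 * (hf P (1 * t) (1 * t) : ℝ) / (t : ℝ) ^ 2 < 2 * δ :=
    hgr'.eventually_lt_const (by linarith)
  obtain ⟨t0, ht0⟩ := Filter.eventually_atTop.1 hev
  set t := t0 + c + 1 with ht
  have ht1 : 1 ≤ t := by omega
  have htR : (1 : ℝ) ≤ t := by exact_mod_cast ht1
  set N := c + t * m + t * m with hN
  have hNt : t0 ≤ N := by
    have : t ≤ t * m := Nat.le_mul_of_pos_right _ (by omega)
    omega
  have h5 := ht0 N hNt
  rw [one_mul] at h5
  have hNpos : (0 : ℝ) < N := by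
    have : 0 < N := by
      have : t ≤ t * m := Nat.le_mul_of_pos_right _ (by omega)
      omega
    exact_mod_cast this
  rw [div_lt_iff₀ (by positivity)] at h5
  have h6 : ((t * m + 1) * (t * (D - 1) + 1) : ℕ) ≤ (hf P N N : ℝ) := by exact_mod_cast hmain t
  have hN3 : (N : ℝ) ≤ 3 * (t * m) := by
    have h7 : c ≤ t * m := by
      have : t ≤ t * m := Nat.le_mul_of_pos_right _ (by omega)
      omega
    have h8 : N ≤ 3 * (t * m) := by omega
    exact_mod_cast h8
  have hD1 : ((D - 1 : ℕ) : ℝ) = (D : ℝ) - 1 := by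
    rw [Nat.cast_sub (by omega)]
    simp
  push_cast at h6
  rw [hD1] at h6
  have hD1' : (0 : ℝ) ≤ (D : ℝ) - 1 := by
    have : (1 : ℝ) ≤ D := by exact_mod_cast hDpos
    linarith
  have h9 : ((t : ℝ) * m) * (t * ((D : ℝ) - 1)) ≤ 9 * δ * ((t : ℝ) * m) ^ 2 := by
    have h10 : ((t : ℝ) * m) * (t * ((D : ℝ) - 1)) ≤ (t * m + 1) * (t * ((D : ℝ) - 1) + 1) := by
      have : (0 : ℝ) ≤ (t : ℝ) * m := by positivity
      have : (0 : ℝ) ≤ (t : ℝ) * ((D : ℝ) - 1) := by positivity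
      nlinarith
    have h11 : (N : ℝ) ^ 2 ≤ (3 * ((t : ℝ) * m)) ^ 2 :=
      pow_le_pow_left₀ hNpos.le hN3 2
    nlinarith
  have h12 : (D : ℝ) - 1 ≤ 9 * δ * m := by
    have h13 : ((t : ℝ) ^ 2 * m) * ((D : ℝ) - 1) ≤ ((t : ℝ) ^ 2 * m) * (9 * δ * m) := by
      calc ((t : ℝ) ^ 2 * m) * ((D : ℝ) - 1) = ((t : ℝ) * m) * (t * ((D : ℝ) - 1)) := by ring
        _ ≤ 9 * δ * ((t : ℝ) * m) ^ 2 := h9
        _ = _ := by ring
    exact le_of_mul_le_mul_left h13 (by positivity)
  have h14 : c0 * (m : ℝ) ^ 2 ≤ (9 * δ + 1) * m := by nlinarith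
  have h15 : c0 * (m : ℝ) ≤ 9 * δ + 1 := by
    have h16 : c0 * (m : ℝ) * m ≤ (9 * δ + 1) * m := by
      calc c0 * (m : ℝ) * m = c0 * (m : ℝ) ^ 2 := by ring
        _ ≤ _ := h14
    exact le_of_mul_le_mul_right h16 (by positivity)
  have h17 : (m1 : ℝ) ≤ m := by
    rw [hm]
    push_cast
    have : (0 : ℝ) ≤ m₀ := Nat.cast_nonneg _
    linarith
  rw [div_lt_iff₀ hc0] at hm1
  nlinarith

end Pool.Agent.TH471.N4
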